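import Pool.Agent.W460.LZ.Top

set_option autoImplicit false

open Set Filter Topology

namespace Pool.Agent.W460.LZ

open MvPolynomial

/-- squared distance to the cusp, in the parameter `z = (s - s₀) / s₀` -/
noncomputable def g (z : ℂ) : ℝ :=
  ‖z ^ 2 * (3 + z) / (1 + z)‖ ^ 2 + ‖z ^ 2 * (6 + 4 * z + z ^ 2)‖ ^ 2

theorem γ_sub_zero {s₀ z : ℂ} (h : s₀ ^ 3 = 1) (hz : 1 + z ≠ 0) :
    ‖γ (s₀ * (1 + z)) 0 - γ s₀ 0‖ = ‖z ^ 2 * (3 + z) / (1 + z)‖ := by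
  have h0 : s₀ ≠ 0 := by rintro rfl; norm_num at h
  have hn : ‖s₀‖ = 1 := by
    have : ‖s₀‖ ^ 3 = 1 := by rw [← norm_pow, h, norm_one]
    exact (pow_eq_one_iff_of_nonneg (norm_nonneg _) (by norm_num)).1 this
  have : γ (s₀ * (1 + z)) 0 - γ s₀ 0 = s₀ ^ 2 * (z ^ 2 * (3 + z) / (1 + z)) := by
    rw [γ_zero, γ_zero]
    have h2 : (2 : ℂ) = 2 * s₀ ^ 3 := by rw [h, mul_one]
    have h3 : 2 / (s₀ * (1 + z)) = 2 * s₀ ^ 2 / (1 + z) := by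
      rw [div_eq_div_iff (mul_ne_zero h0 hz) hz]
      linear_combination (-2 * (1 + z)) * h
    have h4 : 2 / s₀ = 2 * s₀ ^ 2 := by
      rw [div_eq_iff h0]; linear_combination -2 * h
    rw [h3, h4]
    field_simp
    ring
  rw [this, norm_mul, norm_pow, hn, one_pow, one_mul]

theorem γ_sub_one {s₀ z : ℂ} (h : s₀ ^ 3 = 1) :
    ‖γ (s₀ * (1 + z)) 1 - γ s₀ 1‖ = ‖z ^ 2 * (6 + 4 * z + z ^ 2)‖ := by
  have hn : ‖s₀‖ = 1 := by
    have : ‖s₀‖ ^ 3 = 1 := by rw [← norm_pow, h, norm_one]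
    exact (pow_eq_one_iff_of_nonneg (norm_nonneg _) (by norm_num)).1 this
  have : γ (s₀ * (1 + z)) 1 - γ s₀ 1 = s₀ * (z ^ 2 * (6 + 4 * z + z ^ 2)) := by
    rw [γ_one, γ_one]
    linear_combination (s₀ * ((1 + z) ^ 4 - 1)) * h
  rw [this, norm_mul, hn, one_mul]

theorem one_add_ne {z : ℂ} (hz : ‖z‖ < 1 / 2) : 1 + z ≠ 0 := by
  intro h
  have : z = -1 := by linear_combination h
  rw [this, norm_neg, norm_one] at hz
  norm_num at hz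

/-- radial monotonicity, first coordinate -/
theorem rad1 {z : ℂ} (hz : ‖z‖ < 1 / 2) {l : ℝ} (h0 : 0 ≤ l) (h1 : l ≤ 1) :
    l ^ 2 * (‖3 + (l : ℂ) * z‖ * ‖1 + z‖) ≤ ‖3 + z‖ * ‖1 + (l : ℂ) * z‖ := by
  rw [← norm_mul, ← norm_mul]
  have hz0 := norm_nonneg z
  have e : (3 + z) * (1 + (l : ℂ) * z) = (3 + (l : ℂ) * z) * (1 + z) - ((2 * (1 - l) : ℝ) : ℂ) * z := by
    push_cast; ring
  rw [e]
  have t : ‖(3 + (l : ℂ) * z) * (1 + z)‖ - ‖((2 * (1 - l) : ℝ) : ℂ) * z‖ ≤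
    ‖(3 + (l : ℂ) * z) * (1 + z) - ((2 * (1 - l) : ℝ) : ℂ) * z‖ := norm_sub_norm_le _ _
  have t2 : ‖((2 * (1 - l) : ℝ) : ℂ) * z‖ = 2 * (1 - l) * ‖z‖ := by
    rw [norm_mul, Complex.norm_real, Real.norm_of_nonneg (by linarith)]
  have hlz : ‖(l : ℂ) * z‖ = l * ‖z‖ := by
    rw [norm_mul, Complex.norm_real, Real.norm_of_nonneg h0]
  have t3 : 5 / 2 ≤ ‖3 + (l : ℂ) * z‖ := by
    have : ‖(3 : ℂ)‖ - ‖(l : ℂ) * z‖ ≤ ‖3 + (l : ℂ) * z‖ := by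
      have := norm_sub_norm_le (3 : ℂ) (-((l : ℂ) * z))
      rwa [norm_neg, sub_neg_eq_add] at this
    rw [hlz] at this
    norm_num at this
    nlinarith
  have t4 : 1 / 2 ≤ ‖1 + z‖ := by
    have : ‖(1 : ℂ)‖ - ‖z‖ ≤ ‖1 + z‖ := by
      have := norm_sub_norm_le (1 : ℂ) (-z)
      rwa [norm_neg, sub_neg_eq_add] at this
    rw [norm_one] at this
    linarith
  have t5 : 5 / 4 ≤ ‖(3 + (l : ℂ) * z) * (1 + z)‖ := by
    rw [norm_mul]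
    nlinarith
  rw [t2] at t
  nlinarith [mul_nonneg (sub_nonneg.2 h1) h0, mul_nonneg (sub_nonneg.2 h1) hz0]

/-- radial monotonicity, second coordinate -/
theorem rad2 {z : ℂ} (hz : ‖z‖ < 1 / 2) {l : ℝ} (h0 : 0 ≤ l) (h1 : l ≤ 1) :
    l ^ 2 * ‖6 + 4 * ((l : ℂ) * z) + ((l : ℂ) * z) ^ 2‖ ≤ ‖6 + 4 * z + z ^ 2‖ := by
  have hz0 := norm_nonneg z
  have e : 6 + 4 * z + z ^ 2 = (6 + 4 * ((l : ℂ) * z) + ((l : ℂ) * z) ^ 2) +
      (((1 - l) : ℝ) : ℂ) * (4 * z + ((1 + l : ℝ) : ℂ) * z ^ 2) := by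
    push_cast; ring
  rw [e]
  have t : ‖6 + 4 * ((l : ℂ) * z) + ((l : ℂ) * z) ^ 2‖ -
      ‖(((1 - l) : ℝ) : ℂ) * (4 * z + ((1 + l : ℝ) : ℂ) * z ^ 2)‖ ≤
    ‖(6 + 4 * ((l : ℂ) * z) + ((l : ℂ) * z) ^ 2) +
      (((1 - l) : ℝ) : ℂ) * (4 * z + ((1 + l : ℝ) : ℂ) * z ^ 2)‖ := by
    have := norm_sub_norm_le (6 + 4 * ((l : ℂ) * z) + ((l : ℂ) * z) ^ 2)
      (-((((1 - l) : ℝ) : ℂ) * (4 * z + ((1 + l : ℝ) : ℂ) * z ^ 2)))
    rwa [norm_neg, sub_neg_eq_add] at this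
  have t2 : ‖(((1 - l) : ℝ) : ℂ) * (4 * z + ((1 + l : ℝ) : ℂ) * z ^ 2)‖ ≤ (1 - l) * (5 / 2) := by
    rw [norm_mul, Complex.norm_real, Real.norm_of_nonneg (by linarith)]
    apply mul_le_mul_of_nonneg_left _ (by linarith)
    refine (norm_add_le _ _).trans ?_
    rw [norm_mul, norm_mul, norm_pow, Complex.norm_real, Real.norm_of_nonneg (by linarith)]
    norm_num
    nlinarith
  have hlz : ‖(l : ℂ) * z‖ = l * ‖z‖ := by
    rw [norm_mul, Complex.norm_real, Real.norm_of_nonneg h0]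
  have t3 : 15 / 4 ≤ ‖6 + 4 * ((l : ℂ) * z) + ((l : ℂ) * z) ^ 2‖ := by
    have h2 : ‖(6 : ℂ)‖ - ‖4 * ((l : ℂ) * z) + ((l : ℂ) * z) ^ 2‖ ≤
        ‖6 + 4 * ((l : ℂ) * z) + ((l : ℂ) * z) ^ 2‖ := by
      have := norm_sub_norm_le (6 : ℂ) (-(4 * ((l : ℂ) * z) + ((l : ℂ) * z) ^ 2))
      rw [norm_neg, sub_neg_eq_add] at this
      rwa [add_assoc]
    have h3 : ‖4 * ((l : ℂ) * z) + ((l : ℂ) * z) ^ 2‖ ≤ 9 / 4 := by
      refine (norm_add_le _ _).trans ?_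
      rw [norm_mul, norm_pow, hlz]
      norm_num
      have : l * ‖z‖ ≤ 1 / 2 := by nlinarith
      nlinarith [mul_nonneg h0 hz0]
    norm_num at h2
    linarith
  nlinarith [mul_nonneg (sub_nonneg.2 h1) h0]

theorem g_radial {z : ℂ} (hz : ‖z‖ < 1 / 2) {l : ℝ} (h0 : 0 ≤ l) (h1 : l ≤ 1) :
    g ((l : ℂ) * z) ≤ g z := by
  have hlz : ‖(l : ℂ) * z‖ = l * ‖z‖ := by
    rw [norm_mul, Complex.norm_real, Real.norm_of_nonneg h0]
  have hlz' : ‖(l : ℂ) * z‖ < 1 / 2 := by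
    rw [hlz]
    have := norm_nonneg z
    nlinarith
  have p1 : 0 < ‖1 + z‖ := norm_pos_iff.2 (one_add_ne hz)
  have p2 : 0 < ‖1 + (l : ℂ) * z‖ := norm_pos_iff.2 (one_add_ne hlz')
  unfold g
  apply add_le_add
  · apply pow_le_pow_left₀ (norm_nonneg _)
    rw [norm_div, norm_div, norm_mul, norm_mul, norm_pow, norm_pow, hlz, div_le_div_iff₀ p2 p1]
    have := rad1 hz h0 h1
    have h3 : 0 ≤ ‖z‖ ^ 2 := by positivity
    calc (l * ‖z‖) ^ 2 * ‖3 + (l : ℂ) * z‖ * ‖1 + z‖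
        = ‖z‖ ^ 2 * (l ^ 2 * (‖3 + (l : ℂ) * z‖ * ‖1 + z‖)) := by ring
      _ ≤ ‖z‖ ^ 2 * (‖3 + z‖ * ‖1 + (l : ℂ) * z‖) := mul_le_mul_of_nonneg_left this h3
      _ = ‖z‖ ^ 2 * ‖3 + z‖ * ‖1 + (l : ℂ) * z‖ := by ring
  · apply pow_le_pow_left₀ (norm_nonneg _)
    rw [norm_mul, norm_mul, norm_pow, norm_pow, hlz]
    have := rad2 hz h0 h1
    have h3 : 0 ≤ ‖z‖ ^ 2 := by positivity
    calc (l * ‖z‖) ^ 2 * ‖6 + 4 * ((l : ℂ) * z) + ((l : ℂ) * z) ^ 2‖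
        = ‖z‖ ^ 2 * (l ^ 2 * ‖6 + 4 * ((l : ℂ) * z) + ((l : ℂ) * z) ^ 2‖) := by ring
      _ ≤ ‖z‖ ^ 2 * ‖6 + 4 * z + z ^ 2‖ := mul_le_mul_of_nonneg_left this h3

theorem g_small {δ : ℝ} (hδ : 0 < δ) : ∃ η : ℝ, 0 < η ∧ ∀ z : ℂ, ‖z‖ < η → ‖z‖ < 1 / 2 ∧ g z < δ ^ 2 := by
  have hc : ContinuousAt g 0 := by
    unfold g
    apply ContinuousAt.add
    · apply ContinuousAt.pow
      apply ContinuousAt.norm
      apply ContinuousAt.div
      · fun_prop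
      · fun_prop
      · norm_num
    · fun_prop
  have h0 : g 0 = 0 := by simp [g]
  have h1 : ∀ᶠ z in 𝓝 (0 : ℂ), g z < δ ^ 2 := by
    have : g 0 < δ ^ 2 := by rw [h0]; positivity
    exact hc.eventually (gt_mem_nhds this)
  obtain ⟨η, hη, h⟩ := Metric.eventually_nhds_iff.1 h1
  refine ⟨min η (1 / 2), by positivity, fun z hz => ⟨lt_of_lt_of_le hz (min_le_right _ _), h ?_⟩⟩
  rw [dist_zero_right]
  exact lt_of_lt_of_le hz (min_le_left _ _)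

/-- the region in the logarithmic coordinate -/
theorem conn_W {δ : ℝ} (hδ : 0 < δ) :
    IsPreconnected {w : ℂ | ‖Complex.exp w‖ < 1 / 2 ∧ g (Complex.exp w) < δ ^ 2} := by
  obtain ⟨η, hη, hsm⟩ := g_small hδ
  set H : Set ℂ := {w : ℂ | w.re < Real.log η} with hH
  have hHconv : Convex ℝ H := convex_halfSpace_re_lt _
  have hHsub : H ⊆ {w : ℂ | ‖Complex.exp w‖ < 1 / 2 ∧ g (Complex.exp w) < δ ^ 2} := by
    intro w hw
    apply hsm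
    rw [Complex.norm_exp]
    exact (Real.lt_log_iff_exp_lt hη).1 hw
  refine isPreconnected_of_forall ((Real.log η - 1 : ℝ) : ℂ) fun y hy => ?_
  set S : Set ℂ := (fun x : ℝ => y - (x : ℂ)) '' Ici 0 with hS
  have hSconn : IsPreconnected S := by
    apply (convex_Ici (0 : ℝ)).isPreconnected.image
    exact (continuous_const.sub Complex.continuous_ofReal).continuousOn
  have hSsub : S ⊆ {w : ℂ | ‖Complex.exp w‖ < 1 / 2 ∧ g (Complex.exp w) < δ ^ 2} := by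
    rintro _ ⟨x, hx, rfl⟩
    have hx' : (0 : ℝ) ≤ x := hx
    have e : Complex.exp (y - (x : ℂ)) = ((Real.exp (-x) : ℝ) : ℂ) * Complex.exp y := by
      rw [Complex.ofReal_exp, ← Complex.exp_add]
      congr 1
      push_cast; ring
    have l0 : 0 ≤ Real.exp (-x) := (Real.exp_pos _).le
    have l1 : Real.exp (-x) ≤ 1 := Real.exp_le_one_iff.2 (by linarith)
    show ‖Complex.exp (y - (x : ℂ))‖ < 1 / 2 ∧ g (Complex.exp (y - (x : ℂ))) < δ ^ 2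
    rw [e]
    refine ⟨?_, lt_of_le_of_lt (g_radial hy.1 l0 l1) hy.2⟩
    rw [norm_mul, Complex.norm_real, Real.norm_of_nonneg l0]
    have := norm_nonneg (Complex.exp y)
    nlinarith [hy.1]
  -- a common point
  set x₀ : ℝ := |y.re| + |Real.log η| + 1 with hx₀
  have hc1 : y - (x₀ : ℂ) ∈ S := ⟨x₀, by show (0 : ℝ) ≤ x₀; positivity, rfl⟩
  have hc2 : y - (x₀ : ℂ) ∈ H := by
    show (y - (x₀ : ℂ)).re < Real.log η
    rw [Complex.sub_re, Complex.ofReal_re]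
    have a1 := le_abs_self y.re
    have a2 := neg_abs_le (Real.log η)
    linarith
  refine ⟨H ∪ S, union_subset hHsub hSsub, Or.inl ?_, Or.inr ⟨0, by simp, by simp⟩, ?_⟩
  · show (((Real.log η - 1 : ℝ)) : ℂ).re < Real.log η
    rw [Complex.ofReal_re]; linarith
  · exact IsPreconnected.union _ hc2 hc1 hHconv.isPreconnected hSconn

/-- local irreducibility at the cusps -/
theorem unibranch {s₀ : ℂ} (h : s₀ ^ 3 = 1) :
    ∃ ε : ℝ, 0 < ε ∧ ∀ δ : ℝ, 0 < δ → δ < ε →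
      IsPreconnected {q : Fin 2 → ℂ | eval q F = 0 ∧ q ≠ γ s₀ ∧
        ‖q 0 - γ s₀ 0‖ ^ 2 + ‖q 1 - γ s₀ 1‖ ^ 2 < δ ^ 2} := by
  have h0 : s₀ ≠ 0 := by rintro rfl; norm_num at h
  have hn : ‖s₀‖ = 1 := by
    have : ‖s₀‖ ^ 3 = 1 := by rw [← norm_pow, h, norm_one]
    exact (pow_eq_one_iff_of_nonneg (norm_nonneg _) (by norm_num)).1 this
  obtain ⟨ε, hε, hfar⟩ := exists_eps h0 (r := 1 / 2) (by norm_num)
  refine ⟨ε, hε, fun δ hδ hδε => ?_⟩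
  have himg : {q : Fin 2 → ℂ | eval q F = 0 ∧ q ≠ γ s₀ ∧
        ‖q 0 - γ s₀ 0‖ ^ 2 + ‖q 1 - γ s₀ 1‖ ^ 2 < δ ^ 2} =
      (fun w : ℂ => γ (s₀ * (1 + Complex.exp w))) ''
        {w : ℂ | ‖Complex.exp w‖ < 1 / 2 ∧ g (Complex.exp w) < δ ^ 2} := by
    ext q
    constructor
    · rintro ⟨hq, hne, hlt⟩
      obtain ⟨s, hs, rfl⟩ := exists_param hq
      have hss : s ≠ s₀ := by rintro rfl; exact hne rfl
      have hclose := hfar s hs (lt_trans hlt (by nlinarith))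
      set z : ℂ := (s - s₀) / s₀ with hz
      have hz0 : z ≠ 0 := div_ne_zero (sub_ne_zero.2 hss) h0
      have hzn : ‖z‖ < 1 / 2 := by rw [hz, norm_div, hn, div_one]; exact hclose
      have hsz : s = s₀ * (1 + z) := by rw [hz]; field_simp; ring
      refine ⟨Complex.log z, ⟨?_, ?_⟩, ?_⟩
      · rw [Complex.exp_log hz0]; exact hzn
      · rw [Complex.exp_log hz0]
        unfold g
        rw [← γ_sub_zero h (one_add_ne hzn), ← γ_sub_one h, ← hsz]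
        exact hlt
      · show γ (s₀ * (1 + Complex.exp (Complex.log z))) = γ s
        rw [Complex.exp_log hz0, ← hsz]
    · rintro ⟨w, ⟨hw1, hw2⟩, rfl⟩
      have hne1 := one_add_ne hw1
      have hs : s₀ * (1 + Complex.exp w) ≠ 0 := mul_ne_zero h0 hne1
      refine ⟨eval_γ hs, ?_, ?_⟩
      · intro he
        have := γ_inj hs h0 he
        have h2 : s₀ * Complex.exp w = 0 := by linear_combination this
        exact (mul_ne_zero h0 (Complex.exp_ne_zero w)) h2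
      · show ‖γ (s₀ * (1 + Complex.exp w)) 0 - γ s₀ 0‖ ^ 2 +
          ‖γ (s₀ * (1 + Complex.exp w)) 1 - γ s₀ 1‖ ^ 2 < δ ^ 2
        rw [γ_sub_zero h hne1, γ_sub_one h]
        exact hw2
  rw [himg]
  apply (conn_W hδ).image
  intro w hw
  have hne1 := one_add_ne hw.1
  have hs : s₀ * (1 + Complex.exp w) ≠ 0 := mul_ne_zero h0 hne1
  apply ContinuousAt.continuousWithinAt
  rw [continuousAt_pi]
  intro i
  fin_cases i
  · show ContinuousAt (fun w : ℂ => (s₀ * (1 + Complex.exp w)) ^ 2 + 2 / (s₀ * (1 + Complex.exp w))) w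
    apply ContinuousAt.add
    · fun_prop
    · apply ContinuousAt.div
      · fun_prop
      · fun_prop
      · exact hs
  · show ContinuousAt (fun w : ℂ => (s₀ * (1 + Complex.exp w)) ^ 4 - 4 * (s₀ * (1 + Complex.exp w))) w
    fun_prop

end Pool.Agent.W460.LZ
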