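import Pool.Agent.W460.LZ.Curve

set_option autoImplicit false

open Set Filter Topology

namespace Pool.Agent.W460.LZ

open MvPolynomial

/-- there is no polynomial section -/
theorem no_section (ρ : Polynomial ℂ) :
    ρ * (Polynomial.X ^ 2 - ρ) ^ 2 - 72 * (Polynomial.X * ρ) + 8 * Polynomial.X ^ 3 - 432 ≠ 0 := by
  intro h
  set σ : Polynomial ℂ := Polynomial.X ^ 2 - ρ with hσ
  have hρ : ρ = Polynomial.X ^ 2 - σ := by rw [hσ]; ring
  have key : σ ^ 2 * (Polynomial.X ^ 2 - σ) =
      Polynomial.C 64 * Polynomial.X ^ 3 - Polynomial.C 72 * Polynomial.X * σ + Polynomial.C 432 := by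
    have h64 : (Polynomial.C 64 : Polynomial ℂ) = 64 := map_ofNat _ 64
    have h72 : (Polynomial.C 72 : Polynomial ℂ) = 72 := map_ofNat _ 72
    have h432 : (Polynomial.C 432 : Polynomial ℂ) = 432 := map_ofNat _ 432
    rw [h64, h72, h432]
    rw [hρ] at h
    linear_combination h
  set n := σ.natDegree with hn
  have hR0 : ∀ τ : Polynomial ℂ, τ.natDegree ≤ 1 →
      (Polynomial.C 64 * Polynomial.X ^ 3 - Polynomial.C 72 * Polynomial.X * τ +
        Polynomial.C 432 : Polynomial ℂ).natDegree = 3 := by
    intro τ hτ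
    have h1 : (Polynomial.C 72 * Polynomial.X * τ).natDegree ≤ 2 := by
      refine (Polynomial.natDegree_mul_le).trans ?_
      have : (Polynomial.C (72 : ℂ) * Polynomial.X).natDegree ≤ 1 := by compute_degree
      omega
    have h2 : (Polynomial.C 64 * Polynomial.X ^ 3 + (- (Polynomial.C 72 * Polynomial.X * τ) +
        Polynomial.C 432) : Polynomial ℂ).natDegree = 3 := by
      rw [Polynomial.natDegree_add_eq_left_of_natDegree_lt]
      · compute_degree!
      · have h3 : (Polynomial.C (64 : ℂ) * Polynomial.X ^ 3 : Polynomial ℂ).natDegree = 3 := by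
          compute_degree!
        rw [h3]
        refine lt_of_le_of_lt (Polynomial.natDegree_add_le _ _) ?_
        rw [Polynomial.natDegree_neg, Polynomial.natDegree_C]
        simp
        omega
    have h4 : (Polynomial.C 64 * Polynomial.X ^ 3 - Polynomial.C 72 * Polynomial.X * τ +
        Polynomial.C 432 : Polynomial ℂ) = Polynomial.C 64 * Polynomial.X ^ 3 +
        (- (Polynomial.C 72 * Polynomial.X * τ) + Polynomial.C 432) := by ring
    rw [h4]; exact h2
  rcases Nat.lt_or_ge n 2 with hlt | hge
  · -- degree at most one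
    have h1 := hR0 σ (by omega)
    rw [← key] at h1
    have hne : σ ^ 2 * (Polynomial.X ^ 2 - σ) ≠ 0 := by
      intro h0; rw [h0] at h1; simp at h1
    have hσ0 : σ ^ 2 ≠ 0 := left_ne_zero_of_mul hne
    have hX : (Polynomial.X ^ 2 - σ) ≠ 0 := right_ne_zero_of_mul hne
    rw [Polynomial.natDegree_mul hσ0 hX, Polynomial.natDegree_pow] at h1
    have h2 : (Polynomial.X ^ 2 - σ : Polynomial ℂ).natDegree = 2 := by
      rw [Polynomial.natDegree_sub_eq_left_of_natDegree_lt]
      · simp
      · simp; omega
    omega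
  · have hup : (Polynomial.C 64 * Polynomial.X ^ 3 - Polynomial.C 72 * Polynomial.X * σ +
        Polynomial.C 432 : Polynomial ℂ).natDegree ≤ max 3 (n + 1) := by
      refine (Polynomial.natDegree_add_le _ _).trans ?_
      rw [Polynomial.natDegree_C]
      refine max_le ?_ (by omega)
      refine (Polynomial.natDegree_sub_le _ _).trans ?_
      refine max_le_max ?_ ?_
      · compute_degree
      · refine (Polynomial.natDegree_mul_le).trans ?_
        have : (Polynomial.C (72 : ℂ) * Polynomial.X).natDegree ≤ 1 := by compute_degree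
        omega
    have hσ0 : σ ≠ 0 := by
      intro h0; rw [h0] at hn; simp at hn; omega
    by_cases hX : (Polynomial.X ^ 2 - σ : Polynomial ℂ) = 0
    · -- then ρ = 0
      rw [hX, mul_zero] at key
      have hσX : σ = Polynomial.X ^ 2 := (sub_eq_zero.1 hX).symm
      rw [hσX] at key
      have := congrArg (Polynomial.eval 0) key
      simp at this
    · have h1 : (σ ^ 2 * (Polynomial.X ^ 2 - σ)).natDegree =
          2 * n + (Polynomial.X ^ 2 - σ : Polynomial ℂ).natDegree := by
        rw [Polynomial.natDegree_mul (pow_ne_zero 2 hσ0) hX, Polynomial.natDegree_pow]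
      rw [key] at h1
      rcases Nat.lt_or_ge 2 n with h3 | h3
      · have h2 : (Polynomial.X ^ 2 - σ : Polynomial ℂ).natDegree = n := by
          rw [Polynomial.natDegree_sub_eq_right_of_natDegree_lt]
          simp; omega
        rw [h1, h2] at hup
        have := le_max_iff.1 hup
        omega
      · rw [h1] at hup
        have := le_max_iff.1 hup
        omega

/-- the equivalence making the second variable the main one -/
noncomputable def e : MvPolynomial (Fin 2) ℂ ≃ₐ[ℂ] Polynomial (MvPolynomial (Fin 1) ℂ) :=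
  (MvPolynomial.renameEquiv ℂ (Equiv.swap (0 : Fin 2) 1)).trans (MvPolynomial.finSuccEquiv ℂ 1)

theorem e_X0 : e (X 0) = Polynomial.C (X 0) := by
  simp only [e, AlgEquiv.trans_apply, renameEquiv_apply, rename_X, Equiv.swap_apply_left]
  exact finSuccEquiv_X_succ (j := 0)

theorem e_X1 : e (X 1) = Polynomial.X := by
  simp only [e, AlgEquiv.trans_apply, renameEquiv_apply, rename_X, Equiv.swap_apply_right]
  exact finSuccEquiv_X_zero

theorem irreducible_F : Irreducible F := by
  rw [← MulEquiv.irreducible_iff (e.toMulEquiv)]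
  set u : MvPolynomial (Fin 1) ℂ := X 0 with hu
  have hF : e F = Polynomial.X * (Polynomial.C u ^ 2 - Polynomial.X) ^ 2 -
      72 * (Polynomial.C u * Polynomial.X) + 8 * Polynomial.C u ^ 3 - 432 := by
    have h72 : e (72 : MvPolynomial (Fin 2) ℂ) = 72 := map_ofNat e 72
    have h8 : e (8 : MvPolynomial (Fin 2) ℂ) = 8 := map_ofNat e 8
    have h432 : e (432 : MvPolynomial (Fin 2) ℂ) = 432 := map_ofNat e 432
    simp only [F, map_sub, map_add, map_mul, map_pow, e_X0, e_X1, h72, h8, h432, hu]
  have hF' : e F = Polynomial.X ^ 3 + Polynomial.C (- (2 * u ^ 2)) * Polynomial.X ^ 2 +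
      Polynomial.C (u ^ 4 - 72 * u) * Polynomial.X + Polynomial.C (8 * u ^ 3 - 432) := by
    rw [hF]
    have h72 : (Polynomial.C (72 : MvPolynomial (Fin 1) ℂ)) = 72 := map_ofNat _ 72
    have h8 : (Polynomial.C (8 : MvPolynomial (Fin 1) ℂ)) = 8 := map_ofNat _ 8
    have h2 : (Polynomial.C (2 : MvPolynomial (Fin 1) ℂ)) = 2 := map_ofNat _ 2
    have h432 : (Polynomial.C (432 : MvPolynomial (Fin 1) ℂ)) = 432 := map_ofNat _ 432
    simp only [map_neg, map_mul, map_pow, map_sub, h72, h8, h2, h432]
    ring
  change Irreducible (e F)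
  have hdeg : (e F).natDegree = 3 := by
    rw [hF']; compute_degree!
  have hmon : (e F).Monic := by
    rw [hF']; monicity!
  rw [hmon.irreducible_iff_natDegree']
  refine ⟨?_, ?_⟩
  · intro h1
    rw [h1] at hdeg; simp at hdeg
  · intro f g hf hg hfg hmem
    rw [hdeg] at hmem
    have hg1 : g.natDegree = 1 := by
      have h1 := Finset.mem_Ioc.1 hmem
      omega
    obtain ⟨r, hr⟩ : ∃ r, g = Polynomial.X - Polynomial.C r := by
      refine ⟨-g.coeff 0, ?_⟩
      rw [map_neg, sub_neg_eq_add]
      exact hg.eq_X_add_C hg1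
    have hroot : (e F).eval r = 0 := by
      rw [← hfg, hr]; simp
    rw [hF] at hroot
    have h72 : (72 : Polynomial (MvPolynomial (Fin 1) ℂ)) = Polynomial.C 72 :=
      (map_ofNat Polynomial.C 72).symm
    have h8 : (8 : Polynomial (MvPolynomial (Fin 1) ℂ)) = Polynomial.C 8 :=
      (map_ofNat Polynomial.C 8).symm
    have h432 : (432 : Polynomial (MvPolynomial (Fin 1) ℂ)) = Polynomial.C 432 :=
      (map_ofNat Polynomial.C 432).symm
    rw [h72, h8, h432] at hroot
    simp only [Polynomial.eval_sub, Polynomial.eval_add, Polynomial.eval_mul, Polynomial.eval_pow,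
      Polynomial.eval_X, Polynomial.eval_C] at hroot
    let ψ : MvPolynomial (Fin 1) ℂ →ₐ[ℂ] Polynomial ℂ := aeval (fun _ => Polynomial.X)
    have hψu : ψ u = Polynomial.X := by simp [ψ, hu]
    have := congrArg ψ hroot
    have h72' : ψ (72 : MvPolynomial (Fin 1) ℂ) = 72 := map_ofNat ψ 72
    have h8' : ψ (8 : MvPolynomial (Fin 1) ℂ) = 8 := map_ofNat ψ 8
    have h432' : ψ (432 : MvPolynomial (Fin 1) ℂ) = 432 := map_ofNat ψ 432
    simp only [map_sub, map_add, map_mul, map_pow, hψu, h72', h8', h432', map_zero] at this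
    exact no_section (ψ r) this

end Pool.Agent.W460.LZ
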