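import Mathlib

/-!
The plane curve `V (U^2 - V)^2 - 72 U V + 8 U^3 - 432 = 0`, the image of the injective proper map
`s ↦ (s^2 + 2/s, s^4 - 4 s)` from the punctured plane.
-/

set_option autoImplicit false

open Set Filter Topology

namespace Pool.Agent.W460.LZ

open MvPolynomial

/-- the equation of the curve -/
noncomputable def F : MvPolynomial (Fin 2) ℂ :=
  X 1 * (X 0 ^ 2 - X 1) ^ 2 - 72 * (X 0 * X 1) + 8 * X 0 ^ 3 - 432

theorem eval_F (p : Fin 2 → ℂ) :
    eval p F = p 1 * (p 0 ^ 2 - p 1) ^ 2 - 72 * (p 0 * p 1) + 8 * p 0 ^ 3 - 432 := by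
  simp [F]

theorem eval_pderiv_zero (p : Fin 2 → ℂ) :
    eval p (pderiv 0 F) = 4 * p 0 * p 1 * (p 0 ^ 2 - p 1) - 72 * p 1 + 24 * p 0 ^ 2 := by
  have h432 : (pderiv 0 : Derivation ℂ (MvPolynomial (Fin 2) ℂ) _) (432 : MvPolynomial (Fin 2) ℂ) = 0 := by
    have := Derivation.map_natCast (pderiv 0 : Derivation ℂ (MvPolynomial (Fin 2) ℂ) _) 432
    exact_mod_cast this
  have h72 : (pderiv 0 : Derivation ℂ (MvPolynomial (Fin 2) ℂ) _) (72 : MvPolynomial (Fin 2) ℂ) = 0 := by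
    have := Derivation.map_natCast (pderiv 0 : Derivation ℂ (MvPolynomial (Fin 2) ℂ) _) 72
    exact_mod_cast this
  have h8 : (pderiv 0 : Derivation ℂ (MvPolynomial (Fin 2) ℂ) _) (8 : MvPolynomial (Fin 2) ℂ) = 0 := by
    have := Derivation.map_natCast (pderiv 0 : Derivation ℂ (MvPolynomial (Fin 2) ℂ) _) 8
    exact_mod_cast this
  simp [F, pderiv_X, Derivation.leibniz, Derivation.leibniz_pow, h432, h72, h8]
  ring

theorem eval_pderiv_one (p : Fin 2 → ℂ) :
    eval p (pderiv 1 F) =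
      (p 0 ^ 2 - p 1) ^ 2 - 2 * p 1 * (p 0 ^ 2 - p 1) - 72 * p 0 := by
  have h432 : (pderiv 1 : Derivation ℂ (MvPolynomial (Fin 2) ℂ) _) (432 : MvPolynomial (Fin 2) ℂ) = 0 := by
    have := Derivation.map_natCast (pderiv 1 : Derivation ℂ (MvPolynomial (Fin 2) ℂ) _) 432
    exact_mod_cast this
  have h72 : (pderiv 1 : Derivation ℂ (MvPolynomial (Fin 2) ℂ) _) (72 : MvPolynomial (Fin 2) ℂ) = 0 := by
    have := Derivation.map_natCast (pderiv 1 : Derivation ℂ (MvPolynomial (Fin 2) ℂ) _) 72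
    exact_mod_cast this
  have h8 : (pderiv 1 : Derivation ℂ (MvPolynomial (Fin 2) ℂ) _) (8 : MvPolynomial (Fin 2) ℂ) = 0 := by
    have := Derivation.map_natCast (pderiv 1 : Derivation ℂ (MvPolynomial (Fin 2) ℂ) _) 8
    exact_mod_cast this
  simp [F, pderiv_X, Derivation.leibniz, Derivation.leibniz_pow, h432, h72, h8]
  ring

/-- the parametrisation -/
noncomputable def γ (s : ℂ) : Fin 2 → ℂ := ![s ^ 2 + 2 / s, s ^ 4 - 4 * s]

@[simp] theorem γ_zero (s : ℂ) : γ s 0 = s ^ 2 + 2 / s := rfl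
@[simp] theorem γ_one (s : ℂ) : γ s 1 = s ^ 4 - 4 * s := rfl

theorem eval_γ {s : ℂ} (hs : s ≠ 0) : eval (γ s) F = 0 := by
  rw [eval_F, γ_zero, γ_one]
  field_simp
  ring

theorem pderiv_one_γ {s : ℂ} (hs : s ≠ 0) :
    eval (γ s) (pderiv 1 F) = -16 * (s ^ 3 - 1) ^ 3 / s ^ 4 := by
  rw [eval_pderiv_one, γ_zero, γ_one]
  field_simp
  ring

theorem pderiv_zero_γ {s : ℂ} (hs : s ^ 3 = 1) : eval (γ s) (pderiv 0 F) = 0 := by
  have h0 : s ≠ 0 := by rintro rfl; norm_num at hs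
  rw [eval_pderiv_zero, γ_zero, γ_one]
  have h2 : 2 / s = 2 * s ^ 2 := by
    rw [div_eq_iff h0]; linear_combination -2 * hs
  rw [h2]
  linear_combination (s * (96 * s ^ 6 - 240 * s ^ 3 - 288)) * hs

theorem γ_inj {s t : ℂ} (hs : s ≠ 0) (ht : t ≠ 0) (h : γ s = γ t) : s = t := by
  have h0 := congrFun h 0
  have h1 := congrFun h 1
  simp only [γ_zero, γ_one] at h0 h1
  by_contra hne
  have hd : s - t ≠ 0 := sub_ne_zero.2 hne
  have e0 : s * t * (s + t) = 2 := by
    field_simp at h0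
    have : (s - t) * (s * t * (s + t) - 2) = 0 := by linear_combination h0
    rcases mul_eq_zero.1 this with h | h
    · exact absurd h hd
    · linear_combination h
  have e1 : (s + t) * (s ^ 2 + t ^ 2) = 4 := by
    have : (s - t) * ((s + t) * (s ^ 2 + t ^ 2) - 4) = 0 := by linear_combination h1
    rcases mul_eq_zero.1 this with h | h
    · exact absurd h hd
    · linear_combination h
  have hst : s + t ≠ 0 := by
    intro h; rw [h] at e0; norm_num at e0
  have : (s + t) * (s - t) ^ 2 = 0 := by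
    linear_combination e1 - 2 * e0
  rcases mul_eq_zero.1 this with h | h
  · exact hst h
  · exact hd (pow_eq_zero_iff (two_ne_zero) |>.1 h)

theorem exists_param {p : Fin 2 → ℂ} (hp : eval p F = 0) : ∃ s : ℂ, s ≠ 0 ∧ γ s = p := by
  rw [eval_F] at hp
  set u := p 0 with hu
  set v := p 1 with hv
  -- a root of the cubic
  obtain ⟨a, ha⟩ : ∃ a : ℂ, a ^ 3 - u * a + 2 = 0 := by
    have hdeg : ((Polynomial.X ^ 3 - Polynomial.C u * Polynomial.X + Polynomial.C 2 :
        Polynomial ℂ)).degree ≠ 0 := by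
      have : ((Polynomial.X ^ 3 - Polynomial.C u * Polynomial.X + Polynomial.C 2 :
        Polynomial ℂ)).degree = 3 := by compute_degree!
      rw [this]; norm_num
    obtain ⟨a, ha⟩ := IsAlgClosed.exists_root _ hdeg
    refine ⟨a, ?_⟩
    simpa [Polynomial.IsRoot] using ha
  obtain ⟨b, hb⟩ : ∃ b : ℂ, b ^ 2 + a * b + (a ^ 2 - u) = 0 := by
    have hdeg : ((Polynomial.X ^ 2 + Polynomial.C a * Polynomial.X + Polynomial.C (a ^ 2 - u) :
        Polynomial ℂ)).degree ≠ 0 := by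
      have : ((Polynomial.X ^ 2 + Polynomial.C a * Polynomial.X + Polynomial.C (a ^ 2 - u) :
        Polynomial ℂ)).degree = 2 := by compute_degree!
      rw [this]; norm_num
    obtain ⟨b, hb⟩ := IsAlgClosed.exists_root _ hdeg
    refine ⟨b, ?_⟩
    simpa [Polynomial.IsRoot] using hb
  have hu' : u = a ^ 2 + a * b + b ^ 2 := by linear_combination -hb
  have hm : a * b * (a + b) = 2 := by rw [hu'] at ha; linear_combination -ha
  have key : (u * a ^ 2 - 6 * a - v) * (u * b ^ 2 - 6 * b - v) *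
      (u * (-(a + b)) ^ 2 - 6 * (-(a + b)) - v) = 0 := by
    have h6 : (6 : ℂ) = 3 * (a * b * (a + b)) := by rw [hm]; norm_num
    have h72 : (72 : ℂ) = 18 * (a * b * (a + b)) ^ 2 := by rw [hm]; norm_num
    have h8 : (8 : ℂ) = 2 * (a * b * (a + b)) ^ 2 := by rw [hm]; norm_num
    have h432 : (432 : ℂ) = 27 * (a * b * (a + b)) ^ 4 := by rw [hm]; norm_num
    rw [h72, h8, h432, hu'] at hp
    rw [h6, hu']
    linear_combination -hp
  have fin : ∀ t : ℂ, t ^ 3 - u * t + 2 = 0 → u * t ^ 2 - 6 * t - v = 0 → ∃ s : ℂ, s ≠ 0 ∧ γ s = p := by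
    intro t h1 h2
    have ht : t ≠ 0 := by rintro rfl; norm_num at h1
    refine ⟨t, ht, ?_⟩
    ext i
    fin_cases i
    · show t ^ 2 + 2 / t = u
      field_simp
      linear_combination h1
    · show t ^ 4 - 4 * t = v
      linear_combination t * h1 + h2
  rcases mul_eq_zero.1 key with h | h
  · rcases mul_eq_zero.1 h with h | h
    · exact fin a ha h
    · refine fin b ?_ h
      rw [hu']; linear_combination hm * (-1)
  · refine fin (-(a + b)) ?_ h
    rw [hu']; linear_combination (-1) * hm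

theorem zero_iff (p : Fin 2 → ℂ) : eval p F = 0 ↔ ∃ s : ℂ, s ≠ 0 ∧ γ s = p := by
  constructor
  · exact exists_param
  · rintro ⟨s, hs, rfl⟩
    exact eval_γ hs

end Pool.Agent.W460.LZ
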