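import Pool.Agent.W460.LZ.Curve

set_option autoImplicit false

open Set Filter Topology

namespace Pool.Agent.W460.LZ

open MvPolynomial

/-- the parametrisation on the punctured plane -/
noncomputable def Γm (s : {z : ℂ // z ≠ 0}) : Fin 2 → ℂ := γ s.1

theorem continuous_Γm : Continuous Γm := by
  refine continuous_pi fun i => ?_
  fin_cases i
  · show Continuous fun s : {z : ℂ // z ≠ 0} => (s : ℂ) ^ 2 + 2 / (s : ℂ)
    exact (continuous_subtype_val.pow 2).add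
      (continuous_const.div continuous_subtype_val fun s => s.2)
  · show Continuous fun s : {z : ℂ // z ≠ 0} => (s : ℂ) ^ 4 - 4 * (s : ℂ)
    exact (continuous_subtype_val.pow 4).sub (continuous_const.mul continuous_subtype_val)

theorem bound_above {s : ℂ} {R : ℝ} (hR : 0 ≤ R) (h : ‖s ^ 4 - 4 * s‖ ≤ R) : ‖s‖ ≤ R + 2 := by
  by_contra hcon
  push Not at hcon
  have h1 : ‖s‖ ^ 4 - 4 * ‖s‖ ≤ R := by
    have : ‖s ^ 4‖ - ‖4 * s‖ ≤ ‖s ^ 4 - 4 * s‖ := norm_sub_norm_le _ _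
    rw [norm_pow, norm_mul] at this
    norm_num at this
    linarith
  have h2 : 8 * ‖s‖ ≤ ‖s‖ ^ 4 := by
    have h3 : (2 : ℝ) ^ 3 ≤ ‖s‖ ^ 3 := pow_le_pow_left₀ (by norm_num) (by linarith) 3
    nlinarith [norm_nonneg s]
  linarith

theorem bound_below {s : ℂ} (hs : s ≠ 0) {R M : ℝ} (hM : ‖s‖ ≤ M)
    (h : ‖s ^ 2 + 2 / s‖ ≤ R) (hpos : 0 < R + M ^ 2) : 2 / (R + M ^ 2) ≤ ‖s‖ := by
  have hs' : 0 < ‖s‖ := norm_pos_iff.2 hs
  have h1 : ‖2 / s‖ ≤ R + M ^ 2 := by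
    have h2 : 2 / s = (s ^ 2 + 2 / s) - s ^ 2 := by ring
    calc ‖2 / s‖ = ‖(s ^ 2 + 2 / s) - s ^ 2‖ := by rw [← h2]
      _ ≤ ‖s ^ 2 + 2 / s‖ + ‖s ^ 2‖ := norm_sub_le _ _
      _ ≤ R + M ^ 2 := by
        rw [norm_pow]
        have : ‖s‖ ^ 2 ≤ M ^ 2 := pow_le_pow_left₀ (norm_nonneg _) hM 2
        linarith
  rw [norm_div] at h1
  norm_num at h1
  rw [div_le_iff₀ hs'] at h1
  rw [div_le_iff₀ hpos]
  linarith

theorem isProperMap_Γm : IsProperMap Γm := by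
  rw [isProperMap_iff_isCompact_preimage]
  refine ⟨continuous_Γm, fun K hK => ?_⟩
  obtain ⟨R, hR0, hR⟩ : ∃ R : ℝ, 0 < R ∧ ∀ x ∈ K, ‖x‖ ≤ R := by
    obtain ⟨R, hR⟩ := hK.isBounded.exists_norm_le
    exact ⟨max R 1, by positivity, fun x hx => (hR x hx).trans (le_max_left _ _)⟩
  have hpos : 0 < R + (R + 2) ^ 2 := by positivity
  have hA : IsCompact {z : ℂ | 2 / (R + (R + 2) ^ 2) ≤ ‖z‖ ∧ ‖z‖ ≤ R + 2} := by
    refine (isCompact_closedBall (0 : ℂ) (R + 2)).of_isClosed_subset ?_ ?_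
    · exact (isClosed_le continuous_const continuous_norm).inter
        (isClosed_le continuous_norm continuous_const)
    · intro z hz
      simpa using hz.2
  have hA' : IsCompact ((Subtype.val : {z : ℂ // z ≠ 0} → ℂ) ⁻¹'
      {z : ℂ | 2 / (R + (R + 2) ^ 2) ≤ ‖z‖ ∧ ‖z‖ ≤ R + 2}) := by
    have hind : Topology.IsInducing (Subtype.val : {z : ℂ // z ≠ 0} → ℂ) :=
      Topology.IsInducing.subtypeVal
    rw [hind.isCompact_preimage_iff]
    · exact hA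
    · intro z hz
      refine ⟨⟨z, ?_⟩, rfl⟩
      rintro rfl
      have := hz.1
      rw [norm_zero] at this
      have h2 : 0 < 2 / (R + (R + 2) ^ 2) := by positivity
      linarith
  refine hA'.of_isClosed_subset (hK.isClosed.preimage continuous_Γm) ?_
  intro s hs
  have h0 : ‖(s : ℂ) ^ 2 + 2 / (s : ℂ)‖ ≤ R := (norm_le_pi_norm (Γm s) 0).trans (hR _ hs)
  have h1 : ‖(s : ℂ) ^ 4 - 4 * (s : ℂ)‖ ≤ R := (norm_le_pi_norm (Γm s) 1).trans (hR _ hs)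
  have h2 := bound_above hR0.le h1
  exact ⟨bound_below s.2 h2 h0 hpos, h2⟩

theorem injective_Γm : Function.Injective Γm := fun s t h => Subtype.ext (γ_inj s.2 t.2 h)

theorem isClosedEmbedding_Γm : Topology.IsClosedEmbedding Γm :=
  .of_continuous_injective_isClosedMap continuous_Γm injective_Γm isProperMap_Γm.isClosedMap

theorem range_Γm : range Γm = {z : Fin 2 → ℂ | eval z F = 0} := by
  ext p
  rw [mem_ofPred_eq, zero_iff]
  constructor
  · rintro ⟨s, rfl⟩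
    exact ⟨s.1, s.2, rfl⟩
  · rintro ⟨s, hs, rfl⟩
    exact ⟨⟨s, hs⟩, rfl⟩

/-- the curve is homeomorphic to the punctured plane -/
noncomputable def homeo : {z : ℂ // z ≠ 0} ≃ₜ ↥{z : Fin 2 → ℂ | eval z F = 0} :=
  isClosedEmbedding_Γm.isEmbedding.toHomeomorph.trans (Homeomorph.setCongr range_Γm)

/-- far points: there is `ε > 0` such that points of the curve at distance less than `ε` of `γ s₀`
have parameter close to `s₀` -/
theorem exists_eps {s₀ : ℂ} (h0 : s₀ ≠ 0) {r : ℝ} (hr : 0 < r) :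
    ∃ ε : ℝ, 0 < ε ∧ ∀ s : ℂ, s ≠ 0 →
      ‖γ s 0 - γ s₀ 0‖ ^ 2 + ‖γ s 1 - γ s₀ 1‖ ^ 2 < ε ^ 2 → ‖s - s₀‖ < r := by
  have hcl : IsClosed (Γm '' {s | r ≤ ‖(s : ℂ) - s₀‖}) := by
    apply isProperMap_Γm.isClosedMap
    exact isClosed_le continuous_const (by fun_prop)
  have hmem : γ s₀ ∈ (Γm '' {s | r ≤ ‖(s : ℂ) - s₀‖})ᶜ := by
    rintro ⟨s, hs, he⟩
    have : (s : ℂ) = s₀ := γ_inj s.2 h0 he
    rw [mem_ofPred_eq, this] at hs
    simp at hs
    linarith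
  obtain ⟨ε, hε, hball⟩ := Metric.isOpen_iff.1 hcl.isOpen_compl _ hmem
  refine ⟨ε, hε, fun s hs hlt => ?_⟩
  by_contra hcon
  push Not at hcon
  have h1 : γ s ∈ Metric.ball (γ s₀) ε := by
    rw [Metric.mem_ball, dist_eq_norm, pi_norm_lt_iff hε]
    have hn : ∀ a b : ℝ, 0 ≤ a → a ^ 2 + b ^ 2 < ε ^ 2 → a < ε := by
      intro a b ha h
      exact lt_of_pow_lt_pow_left₀ 2 hε.le (by nlinarith [sq_nonneg b])
    intro i
    fin_cases i
    · exact hn _ _ (norm_nonneg _) hlt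
    · exact hn _ _ (norm_nonneg _) (by rw [add_comm]; exact hlt)
  exact hball h1 ⟨⟨s, hs⟩, hcon, rfl⟩

end Pool.Agent.W460.LZ
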